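import Mathlib

/-!
# Intertwining of a polynomial with its affine precomposition (MP_2eeab0_an, Q1)

Over every algebraically closed field of characteristic zero, `P = z ^ 3 + z + 1` and
`g = z - 2` give a counterexample: `l = 2 - z` satisfies `(P ∘ g) ∘ l = l ∘ P`.
-/

set_option autoImplicit false

open Polynomial

namespace Pool.Agent.Results.MP_2eeab0_an.TranslatedCubic

variable {K : Type*} [Field K]

/-- the affine polynomial `a z + b` -/
noncomputable def aff (a b : K) : K[X] := C a * X + C b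

/-- `P` and `Q` are intertwined: an irreducible plane curve `F = 0` (with `F` an irreducible
polynomial in two variables) which projects onto both coordinate axes is mapped into itself by
`(z, w) ↦ (P z, Q w)`. -/
def Intertwined (P Q : K[X]) : Prop :=
  ∃ F : Polynomial (Polynomial K), Irreducible F ∧
    (∀ z : K, ∃ w : K, F.evalEval z w = 0) ∧ (∀ w : K, ∃ z : K, F.evalEval z w = 0) ∧
    ∀ z w : K, F.evalEval z w = 0 → F.evalEval (P.eval z) (Q.eval w) = 0

/-- `R` is the conjugate `A⁻¹ ∘ P ∘ A` of `P` by the affine map `A = a z + b`, `a ≠ 0`. -/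
def IsConj (a b : K) (P R : K[X]) : Prop :=
  a ≠ 0 ∧ P.comp (aff a b) = (aff a b).comp R

/-- `P` is monic and centered -/
def MonicCentered (P : K[X]) : Prop :=
  P.Monic ∧ P.coeff (P.natDegree - 1) = 0

/-- the group of multipliers `ζ` of the symmetries `z ↦ ζ z` of a monic centered polynomial `R`:
all the roots of unity if `R` is a monomial, and the `m`-th roots of unity if
`R = z ^ μ P₀(z ^ m)` is the reduced form of `R`, with `P₀ ≠ 1`. -/
def IsSymmMultiplier (R : K[X]) (ζ : K) : Prop :=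
  (R = X ^ R.natDegree ∧ ∃ k : ℕ, 0 < k ∧ ζ ^ k = 1) ∨
  (∃ (μ m : ℕ) (P₀ : K[X]), 0 < m ∧ R = X ^ μ * P₀.comp (X ^ m) ∧ P₀.eval 0 ≠ 0 ∧ P₀ ≠ 1 ∧
    (¬ ∃ (l : ℕ) (Q : K[X]), 2 ≤ l ∧ P₀ = Q.comp (X ^ l)) ∧ ζ ^ m = 1)

/-- `g ∈ Σ(P)`: for some affine `A` with `A⁻¹ ∘ P ∘ A` monic and centered and some symmetry
`σ = ζ z` of `A⁻¹ ∘ P ∘ A` one has `g = A ∘ σ ∘ A⁻¹`, that is, `g ∘ A = A ∘ σ`. -/
def InSigma (P g : K[X]) : Prop :=
  ∃ (a b : K) (R : K[X]) (ζ : K), IsConj a b P R ∧ MonicCentered R ∧ IsSymmMultiplier R ζ ∧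
    g.comp (aff a b) = (aff a b).comp (C ζ * X)

/-- the Chebyshev polynomial with `T_d(w + w⁻¹) = w ^ d + w ^ (-d)` -/
def IsChebyshev (d : ℕ) (T : K[X]) : Prop :=
  ∀ w : K, w ≠ 0 → T.eval (w + w⁻¹) = w ^ d + w⁻¹ ^ d

/-- `P` is integrable: affinely conjugate to `z ^ d` or to `± T_d`. -/
def Integrable (P : K[X]) : Prop :=
  ∃ (a b : K) (R : K[X]), IsConj a b P R ∧
    (R = X ^ P.natDegree ∨ ∃ T : K[X], IsChebyshev P.natDegree T ∧ (R = T ∨ R = -T))

/-- the polynomial -/
noncomputable def P : K[X] := X ^ 3 + X + 1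

lemma natDegree_P : (P : K[X]).natDegree = 3 := by
  unfold P
  compute_degree!

lemma comp_P (a b : K) : (P : K[X]).comp (aff a b) =
    C (a ^ 3) * X ^ 3 + C (3 * a ^ 2 * b) * X ^ 2 + C (3 * a * b ^ 2 + a) * X
      + C (b ^ 3 + b + 1) := by
  simp only [P, aff, add_comp, pow_comp, X_comp, one_comp, map_add, map_mul, map_pow, map_ofNat,
    map_one]
  ring

lemma isCheb_eq [CharZero K] {T : K[X]} (h : IsChebyshev 3 T) : T = X ^ 3 - C 3 * X := by
  apply Polynomial.eq_of_infinite_eval_eq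
  have hinj : Function.Injective (fun n : ℕ => ((n + 1 : ℕ) : K) + (((n + 1 : ℕ) : K))⁻¹) := by
    intro n m hnm
    simp only at hnm
    have hn : ((n + 1 : ℕ) : K) ≠ 0 := by exact_mod_cast Nat.succ_ne_zero n
    have hm : ((m + 1 : ℕ) : K) ≠ 0 := by exact_mod_cast Nat.succ_ne_zero m
    field_simp at hnm
    have h2 : ((n + 1 : ℕ) ^ 2 + 1) * (m + 1 : ℕ) = (n + 1 : ℕ) * ((m + 1 : ℕ) ^ 2 + 1) := by
      exact_mod_cast hnm
    have h3 : ((n : ℤ) - m) * ((n + 1) * (m + 1) - 1) = 0 := by
      have h4 : (((n : ℤ) + 1) ^ 2 + 1) * (m + 1) = (n + 1) * ((m + 1) ^ 2 + 1) := by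
        exact_mod_cast h2
      linear_combination h4
    rcases mul_eq_zero.1 h3 with h5 | h5
    · omega
    · have h6 : (n : ℤ) * m + n + m = 0 := by linear_combination h5
      have h7 : (0 : ℤ) ≤ n * m := by positivity
      omega
  refine (Set.infinite_range_of_injective hinj).mono ?_
  rintro _ ⟨n, rfl⟩
  have hn : ((n + 1 : ℕ) : K) ≠ 0 := by exact_mod_cast Nat.succ_ne_zero n
  have h1 := h _ hn
  change T.eval _ = (X ^ 3 - C 3 * X : K[X]).eval _
  simp only at h1 ⊢
  rw [h1]
  simp only [eval_sub, eval_pow, eval_X, eval_mul, eval_C]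
  field_simp
  ring

lemma coeffs {a b : K} {R : K[X]} (h : IsConj a b P R) :
    a * R.coeff 3 = a ^ 3 ∧ a * R.coeff 2 = 3 * a ^ 2 * b ∧ a * R.coeff 1 = 3 * a * b ^ 2 + a := by
  have h1 := h.2
  rw [comp_P] at h1
  have h2 : (aff a b).comp R = C a * R + C b := by simp [aff]
  rw [h2] at h1
  have h3 := congrArg (fun p : K[X] => p.coeff 3) h1
  have h4 := congrArg (fun p : K[X] => p.coeff 2) h1
  have h5 := congrArg (fun p : K[X] => p.coeff 1) h1
  simp only [coeff_add, coeff_C_mul, coeff_X_pow, coeff_X, coeff_C] at h3 h4 h5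
  norm_num at h3 h4 h5
  exact ⟨h3.symm, h4.symm, h5.symm⟩

lemma not_integrable [CharZero K] : ¬ Integrable (P : K[X]) := by
  rintro ⟨a, b, R, hconj, hR⟩
  have ha := hconj.1
  obtain ⟨h3, h2, h1⟩ := coeffs hconj
  rw [natDegree_P] at hR
  rcases hR with rfl | ⟨T, hT, hRT⟩
  · simp only [coeff_X_pow] at h2 h1
    norm_num at h2 h1
    have hb : b = 0 := by
      rcases h2 with h2 | h2
      · exact absurd h2 ha
      · exact h2
    rw [hb] at h1
    apply ha
    linear_combination -h1
  · rw [isCheb_eq hT] at hRT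
    rcases hRT with rfl | rfl
    · simp [coeff_X_pow] at h2 h1 h3
      have hb : b = 0 := by
        rcases h2 with h2 | h2
        · exact absurd h2 ha
        · exact h2
      rw [hb] at h1
      have h4 : (4 : K) * a = 0 := by linear_combination -h1
      rcases mul_eq_zero.1 h4 with h5 | h5
      · norm_num at h5
      · exact ha h5
    · simp [coeff_X_pow] at h2 h1 h3
      have hb : b = 0 := by
        rcases h2 with h2 | h2
        · exact absurd h2 ha
        · exact h2
      rw [hb] at h1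
      have h4 : (2 : K) * a = 0 := by linear_combination h1
      rcases mul_eq_zero.1 h4 with h5 | h5
      · norm_num at h5
      · exact ha h5

lemma not_inSigma [CharZero K] : ¬ InSigma (P : K[X]) (aff 1 (-2)) := by
  rintro ⟨a, b, R, ζ, hconj, hR, -, hg⟩
  have ha := hconj.1
  obtain ⟨h3, h2, -⟩ := coeffs hconj
  have hdeg : R.natDegree = 3 := by
    have h1 := hconj.2
    have h4 := congrArg natDegree h1
    have h5 : (aff a b).natDegree = 1 := by
      unfold aff
      compute_degree!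
    rw [natDegree_comp, natDegree_comp, h5, natDegree_P] at h4
    omega
  have hc : R.coeff 2 = 0 := by
    have := hR.2
    rwa [hdeg] at this
  rw [hc, mul_zero] at h2
  have hb : b = 0 := by
    have h5 : (3 * a ^ 2 : K) ≠ 0 := mul_ne_zero (by norm_num) (pow_ne_zero _ ha)
    rcases mul_eq_zero.1 h2.symm with h6 | h6
    · exact absurd h6 h5
    · exact h6
  have h7 := congrArg (fun p : K[X] => p.eval 0) hg
  simp [aff, hb] at h7

lemma intertwined : Intertwined ((P : K[X]).comp (aff 1 (-2))) P := by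
  refine ⟨X - C (C 2 - X), irreducible_X_sub_C _, fun z => ⟨2 - z, ?_⟩, fun w => ⟨2 - w, ?_⟩,
    fun z w h => ?_⟩
  · simp [evalEval]
  · simp [evalEval]
  · simp only [evalEval, eval_sub, eval_X, eval_C] at h ⊢
    have hw : w = 2 - z := by linear_combination h
    subst hw
    simp only [P, aff, eval_comp, eval_add, eval_pow, eval_X, eval_one, eval_mul, eval_C]
    ring

/-- Over every algebraically closed field of characteristic zero there are a non-integrable
polynomial `P` and an affine map `g ∉ Σ(P)` such that `P ∘ g` and `P` are intertwined. -/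
theorem result (K : Type*) [Field K] [IsAlgClosed K] [CharZero K] :
    ∃ (P : K[X]) (a b : K), P.natDegree = 3 ∧ a ≠ 0 ∧ ¬ Integrable P ∧
      Intertwined (P.comp (aff a b)) P ∧ ¬ InSigma P (aff a b) :=
  ⟨P, 1, -2, natDegree_P, one_ne_zero, not_integrable, intertwined, not_inSigma⟩

end Pool.Agent.Results.MP_2eeab0_an.TranslatedCubic
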